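import Pool.Agent.P.MP_58728c_al.Main

open Pool.Agent.P.MP_58728c_al in
/-- Every subformation `F` of a one-generated saturated formation is a finite product
`F₁ F₂ ⋯ F_t` (`t ≥ 1`) of non-decomposable formations. -/
theorem Pool.Agent.Results.MP_58728c_al.Factorization.result
    (G₀ : Type) [Group G₀] [Finite G₀] (F : GroupClass) (hF : IsFormation F)
    (hsub : ∀ (G : Type) [Group G] [Finite G], F G → satFormGen G₀ G) :
    ∃ (F₁ : GroupClass) (L : List GroupClass),
      (∀ Y ∈ F₁ :: L, IsFormation Y ∧ NonDecomposable Y) ∧ F = formProdList F₁ L :=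
  main G₀ F hF hsub
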